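import Pool.Agent.W97.MT.Stm
import Pool.Agent.W97.TW.HeckeForm

/-!
MT-OLD: no cusp forms of lower level.
-/

set_option autoImplicit false

open UpperHalfPlane MatrixGroups CongruenceSubgroup Filter Topology Asymptotics
open scoped ModularForm Pointwise

namespace Pool.Agent.W598.MT

open Pool.Agent.W97.MT Pool.Agent.W97.TW

lemma dpos {d : ℕ} (hd : 0 < d) : (0 : ℤ) < (d : ℤ) * 1 - 0 * 0 := by simpa using hd

/-- the form g(dz) of level 14 -/
noncomputable def lift (M d : ℕ) [NeZero M] (hd : 0 < d) (hMd : M * d = 14)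
    (g : CuspForm (Gamma0 M : Subgroup (GL (Fin 2) ℝ)) 2) :
    CuspForm (Gamma0 14 : Subgroup (GL (Fin 2) ℝ)) 2 where
  toFun := (g : ℍ → ℂ) ∣[(2 : ℤ)] al d 0 0 1 (dpos hd)
  slash_action_eq' := by
    rintro _ ⟨γ, hγ, rfl⟩
    obtain ⟨a, b, c, e, hdet, rfl⟩ := exists_mkSL γ
    have hγ' : mkSL a b c e hdet ∈ Gamma0 14 := hγ
    rw [mkSL_mem] at hγ'
    obtain ⟨c', hc'⟩ := hγ'
    have hM : ((M : ℤ) * d) = 14 := by exact_mod_cast hMd
    have hdet' : a * e - (d * b) * (M * c') = 1 := by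
      have : (d * b) * ((M : ℤ) * c') = b * c := by
        rw [hc']
        push_cast
        linear_combination (b * c') * hM
      rw [this]
      exact hdet
    have h1 : al d 0 0 1 (dpos hd) * ((mkSL a b c e hdet : SL(2, ℤ)) : GL (Fin 2) ℝ) =
        ((mkSL a (d * b) (M * c') e hdet' : SL(2, ℤ)) : GL (Fin 2) ℝ) * al d 0 0 1 (dpos hd) := by
      refine al_mul (dpos hd) (dpos hd) _ _ ?_
      rw [mkSL_coe, mkSL_coe, Matrix.mul_fin_two, Matrix.mul_fin_two, hc']
      ext u v
      fin_cases u <;> fin_cases v <;> simp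
      · ring
      · linear_combination (-c') * hM
    have h2 : mkSL a (d * b) (M * c') e hdet' ∈ Gamma0 M := by
      rw [mkSL_mem]
      exact dvd_mul_right _ _
    change ((g : ℍ → ℂ) ∣[(2 : ℤ)] al d 0 0 1 (dpos hd)) ∣[(2 : ℤ)]
      ((mkSL a b c e hdet : SL(2, ℤ)) : GL (Fin 2) ℝ) = _
    rw [← SlashAction.slash_mul, h1, SlashAction.slash_mul]
    congr 1
    exact SlashInvariantFormClass.slash_action_eq g _ ⟨_, h2, rfl⟩
  holo' := holo_slash g d 0 0 1 (dpos hd)
  zero_at_cusps' := by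
    intro x hx
    apply zero_slash' g d 0 0 1 (dpos hd)
    rw [Subgroup.IsArithmetic.isCusp_iff_isCusp_SL2Z] at hx ⊢
    exact hx

lemma lift_apply (M d : ℕ) [NeZero M] (hd : 0 < d) (hMd : M * d = 14)
    (g : CuspForm (Gamma0 M : Subgroup (GL (Fin 2) ℝ)) 2) (z : ℍ) :
    lift M d hd hMd g z = d * g (ofComplex ((d : ℂ) * z)) := by
  change ((g : ℍ → ℂ) ∣[(2 : ℤ)] al d 0 0 1 (dpos hd)) z = _
  rw [slash_al]
  simp [mul_comm]

lemma bound_one (M : ℕ) [NeZero M] (g : CuspForm (Gamma0 M : Subgroup (GL (Fin 2) ℝ)) 2) :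
    (g : ℍ → ℂ) =O[atImInfty] (fun τ : ℍ => Real.exp (-2 * Real.pi * τ.im)) := by
  have h := CuspFormClass.exp_decay_atImInfty (Γ := (Gamma0 M : Subgroup (GL (Fin 2) ℝ))) (k := 2)
    (h := 1) g one_pos (by rw [strictPeriods_Gamma0]; exact AddSubgroup.mem_zmultiples 1)
  simpa using h

lemma im_pos_mul {d : ℕ} (hd : 0 < d) (z : ℍ) : 0 < ((d : ℂ) * z).im := by
  have h : ((d : ℂ) * z).im = d * z.im := by
    simp [Complex.mul_im]
  rw [h]
  exact mul_pos (by exact_mod_cast hd) z.im_pos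

lemma pt_im {d : ℕ} (hd : 0 < d) (z : ℍ) : (ofComplex ((d : ℂ) * z)).im = d * z.im := by
  rw [ofComplex_apply_of_im_pos (im_pos_mul hd z)]
  change ((d : ℂ) * z).im = d * z.im
  simp [Complex.mul_im]

lemma tendsto_pt {d : ℕ} (hd : 0 < d) :
    Tendsto (fun z : ℍ => ofComplex ((d : ℂ) * z)) atImInfty atImInfty := by
  have h1 : Tendsto (fun z : ℍ => (d : ℝ) * z.im) atImInfty atTop :=
    Tendsto.const_mul_atTop (by exact_mod_cast hd) tendsto_comap
  unfold atImInfty
  rw [tendsto_comap_iff]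
  refine h1.congr (fun z => ?_)
  rw [Function.comp_apply, pt_im hd]

theorem s_old : S_OLD := by
  intro e hdim he M hM hM14 g
  have hM0 : M ≠ 0 := by
    rintro rfl
    simp at hM
  have : NeZero M := ⟨hM0⟩
  obtain ⟨d, hd⟩ := hM
  have hd0 : 0 < d := by
    rcases Nat.eq_zero_or_pos d with h | h
    · subst h; simp at hd
    · exact h
  have hd1 : 1 < d := by
    rcases Nat.eq_or_lt_of_le (Nat.succ_le_of_lt hd0) with h | h
    · exfalso
      apply hM14
      have : d = 1 := h.symm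
      rw [this, mul_one] at hd
      exact hd.symm
    · exact h
  obtain ⟨c, hc⟩ := hdim (lift M d hd0 hd.symm g)
  simp only [lift_apply] at hc
  -- the limit
  have hexp : ∀ z : ℍ, ‖Complex.exp (2 * Real.pi * Complex.I * z)‖ =
      Real.exp (-2 * Real.pi * z.im) := by
    intro z
    rw [Complex.norm_exp]
    congr 1
    simp
  have hbound : (fun z : ℍ => (d : ℂ) * g (ofComplex ((d : ℂ) * z)) /
      Complex.exp (2 * Real.pi * Complex.I * z)) =O[atImInfty]
      (fun z : ℍ => Real.exp (-2 * Real.pi * z.im)) := by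
    have h1 := (bound_one M g).comp_tendsto (tendsto_pt hd0)
    obtain ⟨C, hC⟩ := h1.bound
    refine IsBigO.of_bound (d * C) ?_
    filter_upwards [hC] with z hz
    simp only [Function.comp_apply, pt_im hd0] at hz
    rw [norm_div, norm_mul, hexp, Complex.norm_natCast]
    rw [Real.norm_of_nonneg (Real.exp_pos _).le] at hz ⊢
    rw [div_le_iff₀ (Real.exp_pos _)]
    have h2 : Real.exp (-2 * Real.pi * (d * z.im)) ≤
        Real.exp (-2 * Real.pi * z.im) * Real.exp (-2 * Real.pi * z.im) := by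
      rw [← Real.exp_add, Real.exp_le_exp]
      have h3 : (2 : ℝ) ≤ d := by exact_mod_cast hd1
      have h4 := z.im_pos
      have h5 := Real.pi_pos
      nlinarith [mul_pos h5 h4, mul_le_mul_of_nonneg_right h3 (mul_pos h5 h4).le]
    have hC0 : 0 ≤ C := by
      have h6 : 0 ≤ ‖g (ofComplex ((d : ℂ) * z))‖ := norm_nonneg _
      have h7 := Real.exp_pos (-2 * Real.pi * (d * z.im))
      by_contra h8
      push Not at h8
      nlinarith
    calc (d : ℝ) * ‖g (ofComplex ((d : ℂ) * z))‖ ≤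
        d * (C * Real.exp (-2 * Real.pi * (d * z.im))) := by gcongr
      _ ≤ d * (C * (Real.exp (-2 * Real.pi * z.im) * Real.exp (-2 * Real.pi * z.im))) := by
        gcongr
      _ = d * C * Real.exp (-2 * Real.pi * z.im) * Real.exp (-2 * Real.pi * z.im) := by ring
  have hzero : Tendsto (fun z : ℍ => Real.exp (-2 * Real.pi * z.im)) atImInfty (𝓝 0) := by
    apply Real.tendsto_exp_atBot.comp
    have h1 : Tendsto (fun z : ℍ => (2 * Real.pi) * z.im) atImInfty atTop :=
      Tendsto.const_mul_atTop (by positivity) tendsto_comap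
    refine (tendsto_neg_atTop_atBot.comp h1).congr (fun z => ?_)
    simp only [Function.comp_apply]
    ring
  have h0 := hbound.trans_tendsto hzero
  have hc1 : Tendsto (fun z : ℍ => (d : ℂ) * g (ofComplex ((d : ℂ) * z)) /
      Complex.exp (2 * Real.pi * Complex.I * z)) atImInfty (𝓝 (c * 1)) := by
    refine (he.const_mul c).congr (fun z => ?_)
    rw [hc z, mul_div_assoc]
  have hc0 : c = 0 := by
    have := tendsto_nhds_unique hc1 h0
    rwa [mul_one] at this
  intro z
  have hdC : (d : ℂ) ≠ 0 := by exact_mod_cast hd0.ne'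
  have hzim : 0 < ((z : ℂ) / d).im := by
    have : ((z : ℂ) / d).im = z.im / d := by
      rw [Complex.div_natCast_im]
      rfl
    rw [this]
    exact div_pos z.im_pos (by exact_mod_cast hd0)
  have h2 := hc ⟨(z : ℂ) / d, hzim⟩
  rw [hc0, zero_mul] at h2
  have h3 : (d : ℂ) * ((⟨(z : ℂ) / d, hzim⟩ : ℍ) : ℂ) = z := by
    change (d : ℂ) * ((z : ℂ) / d) = z
    field_simp
  rw [h3, ofComplex_apply] at h2
  rcases mul_eq_zero.1 h2 with h4 | h4
  · exact absurd h4 hdC
  · exact h4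

end Pool.Agent.W598.MT
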