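import Pool.Agent.W97.MT.Stm

/-!
MT-QEXP: Euler's product as an integral power series.
-/

set_option autoImplicit false

open Filter Topology

namespace Pool.Agent.W598.MT

open Pool.Agent.W97.MT

/-- finite Euler products -/
noncomputable def eulP (N : ℕ) : Polynomial ℤ :=
  ∏ i ∈ Finset.range N, (1 - Polynomial.X ^ (i + 1))

theorem eulP_succ (N : ℕ) : eulP (N + 1) = eulP N * (1 - Polynomial.X ^ (N + 1)) := by
  unfold eulP
  rw [Finset.prod_range_succ]

theorem eulP_coe (N : ℕ) : ((eulP N : Polynomial ℤ) : PowerSeries ℤ) =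
    ∏ i ∈ Finset.range N, (1 - PowerSeries.X ^ (i + 1)) := by
  induction N with
  | zero => simp [eulP]
  | succ N ih =>
    rw [eulP_succ, Finset.prod_range_succ, ← ih]
    simp

theorem eulP_bound (r : ℝ) (hr : 0 ≤ r) (N : ℕ) : ∀ n : ℕ,
    |(((eulP N).coeff n : ℤ) : ℝ)| * r ^ n ≤ ∏ i ∈ Finset.range N, (1 + r ^ (i + 1)) := by
  induction N with
  | zero =>
    intro n
    rw [Finset.prod_range_zero]
    rcases Nat.eq_zero_or_pos n with h | h
    · subst h
      simp [eulP]
    · have : (eulP 0).coeff n = 0 := by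
        unfold eulP
        rw [Finset.prod_range_zero, Polynomial.coeff_one, if_neg (by omega)]
      rw [this]
      simp
  | succ N ih =>
    intro n
    rw [eulP_succ, Finset.prod_range_succ, mul_sub, mul_one, Polynomial.coeff_sub,
      Polynomial.coeff_mul_X_pow', mul_add, mul_one]
    push_cast
    have hpos : 0 ≤ ∏ i ∈ Finset.range N, (1 + r ^ (i + 1)) :=
      Finset.prod_nonneg (fun i _ => by positivity)
    split_ifs with h
    · have h1 := ih n
      have h2 := ih (n - (N + 1))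
      have h3 : r ^ n = r ^ (n - (N + 1)) * r ^ (N + 1) := by
        rw [← pow_add]
        congr 1
        omega
      have h4 : |(((eulP N).coeff (n - (N + 1)) : ℤ) : ℝ)| * r ^ n ≤
          (∏ i ∈ Finset.range N, (1 + r ^ (i + 1))) * r ^ (N + 1) := by
        rw [h3, ← mul_assoc]
        exact mul_le_mul_of_nonneg_right h2 (by positivity)
      have h5 : |(((eulP N).coeff n : ℤ) : ℝ) - (((eulP N).coeff (n - (N + 1)) : ℤ) : ℝ)| ≤
          |(((eulP N).coeff n : ℤ) : ℝ)| + |(((eulP N).coeff (n - (N + 1)) : ℤ) : ℝ)| :=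
        abs_sub _ _
      have h6 : 0 ≤ r ^ n := by positivity
      calc _ ≤ (|(((eulP N).coeff n : ℤ) : ℝ)| + |(((eulP N).coeff (n - (N + 1)) : ℤ) : ℝ)|) *
            r ^ n := mul_le_mul_of_nonneg_right h5 h6
        _ = |(((eulP N).coeff n : ℤ) : ℝ)| * r ^ n +
            |(((eulP N).coeff (n - (N + 1)) : ℤ) : ℝ)| * r ^ n := by ring
        _ ≤ _ := add_le_add h1 h4
    · have h1 := ih n
      rw [sub_zero]
      have : 0 ≤ (∏ i ∈ Finset.range N, (1 + r ^ (i + 1))) * r ^ (N + 1) := by positivity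
      linarith

theorem prod_bound (r : ℝ) (hr : 0 ≤ r) (hr1 : r < 1) (N : ℕ) :
    ∏ i ∈ Finset.range N, (1 + r ^ (i + 1)) ≤ Real.exp (1 - r)⁻¹ := by
  have h1 : ∏ i ∈ Finset.range N, (1 + r ^ (i + 1)) ≤
      ∏ i ∈ Finset.range N, Real.exp (r ^ i) := by
    apply Finset.prod_le_prod
    · intro i _; positivity
    · intro i _
      have h2 : r ^ (i + 1) ≤ r ^ i := pow_le_pow_of_le_one hr hr1.le (by omega)
      have h3 := Real.add_one_le_exp (r ^ i)
      linarith
  refine h1.trans ?_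
  rw [← Real.exp_sum, Real.exp_le_exp]
  have h4 : Summable (fun i : ℕ => r ^ i) := summable_geometric_of_lt_one hr hr1
  rw [← tsum_geometric_of_lt_one hr hr1]
  exact h4.sum_le_tsum _ (fun i _ => by positivity)

theorem eulP_hasSum (N : ℕ) (q : ℂ) :
    HasSum (fun n : ℕ => (((eulP N).coeff n : ℤ) : ℂ) * q ^ n)
      (∏ i ∈ Finset.range N, (1 - q ^ (i + 1))) := by
  have h1 : Polynomial.aeval q (eulP N) = ∏ i ∈ Finset.range N, (1 - q ^ (i + 1)) := by
    unfold eulP
    rw [map_prod]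
    apply Finset.prod_congr rfl
    intro i _
    simp
  rw [← h1, Polynomial.aeval_eq_sum_range]
  have h2 : ∑ i ∈ Finset.range ((eulP N).natDegree + 1), (eulP N).coeff i • q ^ i =
      ∑ i ∈ Finset.range ((eulP N).natDegree + 1), (((eulP N).coeff i : ℤ) : ℂ) * q ^ i := by
    apply Finset.sum_congr rfl
    intro i _
    rw [zsmul_eq_mul]
  rw [h2]
  apply hasSum_sum_of_ne_finset_zero
  intro n hn
  rw [Finset.mem_range, not_lt] at hn
  rw [Polynomial.coeff_eq_zero_of_natDegree_lt (by omega)]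
  simp

theorem eulP_eventually (n : ℕ) : ∀ᶠ N in atTop,
    (eulP N).coeff n = (PowerSeries.pentagonalSeries ℤ).coeff n := by
  have h1 := PowerSeries.coeff_prod_one_sub_X_pow_eventually_eq ℤ n
  have h2 := tendsto_finset_range.eventually h1
  filter_upwards [h2] with N hN
  rw [← hN, ← eulP_coe, Polynomial.coeff_coe]

theorem hasSum_phi (q : ℂ) (hq : ‖q‖ < 1) :
    HasSum (fun n : ℕ => (((PowerSeries.pentagonalSeries ℤ).coeff n : ℤ) : ℂ) * q ^ n)
      (∏' i : ℕ, (1 - q ^ (i + 1))) := by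
  obtain ⟨r, hr1, hr2⟩ := exists_between hq
  have hr0 : 0 < r := lt_of_le_of_lt (norm_nonneg _) hr1
  set M := Real.exp (1 - r)⁻¹ with hM
  have hb : ∀ N n : ℕ, ‖(((eulP N).coeff n : ℤ) : ℂ) * q ^ n‖ ≤ M * (‖q‖ / r) ^ n := by
    intro N n
    have h1 := (eulP_bound r hr0.le N n).trans (prod_bound r hr0.le hr2 N)
    rw [norm_mul, norm_pow, Complex.norm_intCast, div_pow]
    have h2 : |(((eulP N).coeff n : ℤ) : ℝ)| ≤ M / r ^ n := by
      rw [le_div_iff₀ (by positivity)]
      exact h1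
    calc |(((eulP N).coeff n : ℤ) : ℝ)| * ‖q‖ ^ n ≤ (M / r ^ n) * ‖q‖ ^ n :=
          mul_le_mul_of_nonneg_right h2 (by positivity)
      _ = M * (‖q‖ ^ n / r ^ n) := by ring
  have hbs : Summable (fun n : ℕ => M * (‖q‖ / r) ^ n) := by
    apply Summable.mul_left
    apply summable_geometric_of_lt_one (by positivity)
    rw [div_lt_one hr0]
    exact hr1
  have hb2 : ∀ n : ℕ, ‖(((PowerSeries.pentagonalSeries ℤ).coeff n : ℤ) : ℂ) * q ^ n‖ ≤
      M * (‖q‖ / r) ^ n := by
    intro n
    obtain ⟨N, hN⟩ := (eulP_eventually n).exists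
    rw [← hN]
    exact hb N n
  have hs : Summable (fun n : ℕ =>
      (((PowerSeries.pentagonalSeries ℤ).coeff n : ℤ) : ℂ) * q ^ n) :=
    Summable.of_norm_bounded hbs hb2
  have h1 : Tendsto (fun N : ℕ => ∑' n : ℕ, (((eulP N).coeff n : ℤ) : ℂ) * q ^ n) atTop
      (𝓝 (∑' n : ℕ, (((PowerSeries.pentagonalSeries ℤ).coeff n : ℤ) : ℂ) * q ^ n)) := by
    apply tendsto_tsum_of_dominated_convergence hbs
    · intro n
      apply tendsto_nhds_of_eventually_eq
      filter_upwards [eulP_eventually n] with N hN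
      rw [hN]
    · exact Filter.Eventually.of_forall (fun N n => hb N n)
  have h2 : Tendsto (fun N : ℕ => ∏ i ∈ Finset.range N, (1 - q ^ (i + 1))) atTop
      (𝓝 (∏' i : ℕ, (1 - q ^ (i + 1)))) := by
    apply Multipliable.tendsto_prod_tprod_nat
    have h3 : Summable (fun i : ℕ => ‖-(q ^ (i + 1))‖) := by
      have h4 : Summable (fun i : ℕ => ‖q‖ ^ i) :=
        summable_geometric_of_lt_one (norm_nonneg _) hq
      have h5 := (summable_nat_add_iff 1).2 h4
      refine h5.congr (fun i => ?_)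
      rw [norm_neg, norm_pow]
    have h6 := multipliable_one_add_of_summable h3
    refine h6.congr (fun i => ?_)
    ring
  have h3 : (fun N : ℕ => ∑' n : ℕ, (((eulP N).coeff n : ℤ) : ℂ) * q ^ n) =
      fun N : ℕ => ∏ i ∈ Finset.range N, (1 - q ^ (i + 1)) := by
    funext N
    exact (eulP_hasSum N q).tsum_eq
  rw [h3] at h1
  rw [← tendsto_nhds_unique h1 h2]
  exact hs.hasSum

theorem pent_bound (k : ℤ) (h : pentagonal k < 15) : -2 ≤ k ∧ k ≤ 3 := by
  have h1 := two_mul_natCast_pentagonal k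
  have h2 : (pentagonal k : ℤ) < 15 := by exact_mod_cast h
  constructor <;> nlinarith

theorem s_qexp : S_QEXP := by
  refine ⟨PowerSeries.pentagonalSeries ℤ, ?_, hasSum_phi, ?_⟩
  · have h := PowerSeries.coeff_pentagonalSeries_pentagonal ℤ 0
    have h0 : pentagonal 0 = 0 := by simp [pentagonal_def]
    rw [h0, PowerSeries.coeff_zero_eq_constantCoeff] at h
    rw [h]
    simp
  · rw [PowerSeries.X_pow_dvd_iff]
    intro m hm
    have c0 := PowerSeries.coeff_pentagonalSeries_pentagonal ℤ 0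
    have c1 := PowerSeries.coeff_pentagonalSeries_pentagonal ℤ 1
    have c2 := PowerSeries.coeff_pentagonalSeries_pentagonal ℤ (-1)
    have c3 := PowerSeries.coeff_pentagonalSeries_pentagonal ℤ 2
    have c4 := PowerSeries.coeff_pentagonalSeries_pentagonal ℤ (-2)
    have c5 := PowerSeries.coeff_pentagonalSeries_pentagonal ℤ 3
    have p0 : pentagonal 0 = 0 := by decide
    have p1 : pentagonal 1 = 1 := by decide
    have p2 : pentagonal (-1) = 2 := by decide
    have p3 : pentagonal 2 = 5 := by decide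
    have p4 : pentagonal (-2) = 7 := by decide
    have p5 : pentagonal 3 = 12 := by decide
    rw [p0] at c0
    rw [p1] at c1
    rw [p2] at c2
    rw [p3] at c3
    rw [p4] at c4
    rw [p5] at c5
    have hz : ∀ m : ℕ, m < 15 → m ≠ 0 → m ≠ 1 → m ≠ 2 → m ≠ 5 → m ≠ 7 → m ≠ 12 →
        (PowerSeries.pentagonalSeries ℤ).coeff m = 0 := by
      intro m hm h0 h1 h2 h3 h4 h5
      apply PowerSeries.coeff_pentagonalSeries_eq_zero
      rintro ⟨k, hk⟩
      obtain ⟨k1, k2⟩ := pent_bound k (by omega)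
      interval_cases k <;> omega
    simp only [map_sub, map_add, PowerSeries.coeff_X_pow, PowerSeries.coeff_X,
      PowerSeries.coeff_one]
    interval_cases m
    · rw [c0]; simp
    · rw [c1]; simp
    · rw [c2]; simp
    · rw [hz 3] <;> simp
    · rw [hz 4] <;> simp
    · rw [c3]; simp
    · rw [hz 6] <;> simp
    · rw [c4]; simp
    · rw [hz 8] <;> simp
    · rw [hz 9] <;> simp
    · rw [hz 10] <;> simp
    · rw [hz 11] <;> simp
    · rw [c5]; simp
    · rw [hz 13] <;> simp

end Pool.Agent.W598.MT
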