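import Pool.Agent.W97.MT.Stm

/-!
MT-TATE: the 7-adic Tate period of the curve E14.
-/

set_option autoImplicit false

namespace Pool.Agent.W598.MT

open Pool.Agent.W97.MT

theorem norm_343 : ‖(343 : ℤ_[7])‖ ≤ 1 / 7 := by
  have h : (343 : ℤ_[7]) = ((7 : ℕ) : ℤ_[7]) ^ 3 := by norm_num
  rw [h, PadicInt.norm_p_pow]
  norm_num

/-- the tail of the divisor sum series at 343 u -/
noncomputable def AA (k : ℕ) (u : ℤ_[7]) : ℤ_[7] :=
  ∑' n : ℕ, (ArithmeticFunction.sigma k (n + 2) : ℤ_[7]) * (343 * u) ^ n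

theorem summable_aux (a g : ℕ → ℤ_[7]) : Summable (fun n => a n * (343 ^ n * g n)) := by
  apply Summable.of_norm_bounded (g := fun n => (1 / 7 : ℝ) ^ n)
  · exact summable_geometric_of_lt_one (by norm_num) (by norm_num)
  · intro n
    rw [norm_mul, norm_mul, norm_pow]
    have h1 : ‖a n‖ ≤ 1 := PadicInt.norm_le_one _
    have h2 : ‖g n‖ ≤ 1 := PadicInt.norm_le_one _
    have h3 : ‖(343 : ℤ_[7])‖ ^ n ≤ (1 / 7) ^ n := pow_le_pow_left₀ (norm_nonneg _) norm_343 n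
    have h4 : 0 ≤ ‖(343 : ℤ_[7])‖ ^ n := by positivity
    calc ‖a n‖ * (‖(343 : ℤ_[7])‖ ^ n * ‖g n‖) ≤ 1 * (‖(343 : ℤ_[7])‖ ^ n * 1) := by
          gcongr
      _ ≤ (1 / 7) ^ n := by rw [one_mul, mul_one]; exact h3

theorem summable_AA (k : ℕ) (u : ℤ_[7]) :
    Summable (fun n : ℕ => (ArithmeticFunction.sigma k (n + 2) : ℤ_[7]) * (343 * u) ^ n) := by
  have := summable_aux (fun n => (ArithmeticFunction.sigma k (n + 2) : ℤ_[7])) (fun n => u ^ n)
  simpa only [mul_pow] using this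

theorem AA_dvd (k : ℕ) (u v : ℤ_[7]) : u - v ∣ AA k u - AA k v := by
  have h : ∀ n : ℕ, ∃ g, u ^ n - v ^ n = (u - v) * g := fun n => sub_dvd_pow_sub_pow u v n
  choose g hg using h
  refine ⟨∑' n : ℕ, (ArithmeticFunction.sigma k (n + 2) : ℤ_[7]) * (343 ^ n * g n), ?_⟩
  unfold AA
  rw [← (summable_AA k u).tsum_sub (summable_AA k v),
    ← (summable_aux (fun n => (ArithmeticFunction.sigma k (n + 2) : ℤ_[7])) g).tsum_mul_left]
  congr 1
  ext1 n
  rw [← mul_sub, mul_pow, mul_pow, ← mul_sub, hg n]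
  ring

/-- the coercion of AA -/
theorem coe_AA (k : ℕ) (u : ℤ_[7]) :
    HasSum (fun n : ℕ => (ArithmeticFunction.sigma k (n + 2) : ℚ_[7]) *
      (((u : ℤ_[7]) : ℚ_[7]) * 7 ^ 3) ^ n) ((AA k u : ℤ_[7]) : ℚ_[7]) := by
  have h1 := (summable_AA k u).hasSum
  have h2 := h1.map (PadicInt.Coe.ringHom (p := 7)) continuous_subtype_val
  have h3 : (PadicInt.Coe.ringHom (p := 7)) ∘ (fun n : ℕ =>
      (ArithmeticFunction.sigma k (n + 2) : ℤ_[7]) * (343 * u) ^ n) =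
      (fun n : ℕ => (ArithmeticFunction.sigma k (n + 2) : ℚ_[7]) *
      (((u : ℤ_[7]) : ℚ_[7]) * 7 ^ 3) ^ n) := by
    funext n
    rw [Function.comp_apply, map_mul, map_natCast, map_pow, map_mul]
    have e1 : (PadicInt.Coe.ringHom (p := 7)) u = (u : ℚ_[7]) := rfl
    have e2 : (PadicInt.Coe.ringHom (p := 7)) 343 = 7 ^ 3 := by
      rw [map_ofNat]; norm_num
    rw [e1, e2, mul_comm ((7 : ℚ_[7]) ^ 3)]
  rw [h3] at h2
  exact h2

theorem series_eq (k : ℕ) (u : ℤ_[7]) :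
    ∑' n : ℕ, (ArithmeticFunction.sigma k (n + 1) : ℚ_[7]) *
      (((u : ℤ_[7]) : ℚ_[7]) * 7 ^ 3) ^ (n + 1) =
    ((u : ℤ_[7]) : ℚ_[7]) * 7 ^ 3 + (((u : ℤ_[7]) : ℚ_[7]) * 7 ^ 3) ^ 2 *
      ((AA k u : ℤ_[7]) : ℚ_[7]) := by
  set q : ℚ_[7] := ((u : ℤ_[7]) : ℚ_[7]) * 7 ^ 3 with hq
  have h1 := (coe_AA k u).mul_left (q ^ 2)
  rw [← hq] at h1
  have h2 : (fun n : ℕ => q ^ 2 * ((ArithmeticFunction.sigma k (n + 2) : ℚ_[7]) * q ^ n)) =
      fun n : ℕ => (fun n : ℕ => (ArithmeticFunction.sigma k (n + 1) : ℚ_[7]) *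
        q ^ (n + 1)) (n + 1) := by
    funext n
    simp only
    ring
  rw [h2] at h1
  have h3 := (hasSum_nat_add_iff' (f := fun n : ℕ =>
    (ArithmeticFunction.sigma k (n + 1) : ℚ_[7]) * q ^ (n + 1)) (g := q + q ^ 2 *
      ((AA k u : ℤ_[7]) : ℚ_[7])) 1).1 (by
      have e : q + q ^ 2 * ((AA k u : ℤ_[7]) : ℚ_[7]) - ∑ i ∈ Finset.range 1,
          (ArithmeticFunction.sigma k (i + 1) : ℚ_[7]) * q ^ (i + 1) =
          q ^ 2 * ((AA k u : ℤ_[7]) : ℚ_[7]) := by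
        rw [Finset.sum_range_one]
        simp
      rw [e]
      exact h1)
  exact h3.tsum_eq

noncomputable def WW (u : ℤ_[7]) : ℤ_[7] :=
  720 * AA 3 u + 1008 * AA 5 u + 172800 * (1 + 343 * u * AA 3 u) ^ 2 +
    13824000 * (343 * u) * (1 + 343 * u * AA 3 u) ^ 3 - 254016 * (1 + 343 * u * AA 5 u) ^ 2

noncomputable def yy (u : ℤ_[7]) : ℤ_[7] := 240 * (u + 343 * u ^ 2 * AA 3 u)

noncomputable def HH (b u : ℤ_[7]) : ℤ_[7] :=
  b * (1728 * (-64) * (3 * yy u + 3 * 343 * yy u ^ 2 + 343 ^ 2 * yy u ^ 3) -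
    (-215) ^ 3 * u ^ 2 * WW u)

theorem HH_dvd (b u v : ℤ_[7]) : u - v ∣ HH b u - HH b v := by
  rw [← Ideal.mem_span_singleton, ← Ideal.Quotient.eq]
  have h0 : Ideal.Quotient.mk (Ideal.span {u - v}) u = Ideal.Quotient.mk (Ideal.span {u - v}) v :=
    (Ideal.Quotient.eq).2 (Ideal.mem_span_singleton.2 dvd_rfl)
  have h1 : ∀ k, Ideal.Quotient.mk (Ideal.span {u - v}) (AA k u) =
      Ideal.Quotient.mk (Ideal.span {u - v}) (AA k v) := fun k =>
    (Ideal.Quotient.eq).2 (Ideal.mem_span_singleton.2 (AA_dvd k u v))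
  simp only [HH, yy, WW, map_mul, map_sub, map_add, map_pow, h0, h1]

noncomputable def TT (b u : ℤ_[7]) : ℤ_[7] := b * (1728 * (-64)) + 343 * HH b u

theorem TT_contr (b : ℤ_[7]) : ContractingWith (1 / 7 : NNReal) (TT b) := by
  refine ⟨?_, ?_⟩
  · rw [div_lt_one (by norm_num)]
    norm_num
  · apply LipschitzWith.of_dist_le_mul
    intro u v
    rw [dist_eq_norm, dist_eq_norm]
    obtain ⟨c, hc⟩ := HH_dvd b u v
    have e : TT b u - TT b v = 343 * ((u - v) * c) := by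
      unfold TT
      rw [← hc]
      ring
    rw [e, norm_mul, norm_mul]
    have h1 : ‖c‖ ≤ 1 := PadicInt.norm_le_one _
    have h2 := norm_343
    have h3 : ((1 / 7 : NNReal) : ℝ) = 1 / 7 := by norm_num
    rw [h3]
    calc ‖(343 : ℤ_[7])‖ * (‖u - v‖ * ‖c‖) ≤ (1 / 7) * (‖u - v‖ * 1) := by gcongr
      _ = 1 / 7 * ‖u - v‖ := by rw [mul_one]

theorem s_tate : S_TATE := by
  -- inverse of the constant
  have hunit : IsUnit ((-215 : ℤ_[7]) ^ 3 * 1728) := by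
    have h1 : PadicInt.toZMod ((-215 : ℤ_[7]) ^ 3 * 1728) ≠ 0 := by
      rw [map_mul, map_pow, map_neg, map_ofNat, map_ofNat]
      decide
    by_contra h2
    apply h1
    have h3 : ((-215 : ℤ_[7]) ^ 3 * 1728) ∈ IsLocalRing.maximalIdeal ℤ_[7] :=
      (IsLocalRing.mem_maximalIdeal _).2 h2
    rw [← PadicInt.ker_toZMod] at h3
    exact h3
  obtain ⟨a, ha⟩ := hunit
  set b : ℤ_[7] := ((a⁻¹ : ℤ_[7]ˣ) : ℤ_[7]) with hb
  have hab : ((-215 : ℤ_[7]) ^ 3 * 1728) * b = 1 := by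
    rw [← ha, hb]
    exact a.mul_inv
  set u := ContractingWith.fixedPoint (TT b) (TT_contr b) with hu
  have hfix : TT b u = u := ContractingWith.fixedPoint_isFixedPt (TT_contr b)
  -- the equation
  have heq : ((-215 : ℤ_[7]) ^ 3 * 1728) * u = 1728 * (-64) * (1 + 343 * yy u) ^ 3 -
      343 * ((-215) ^ 3 * u ^ 2 * WW u) := by
    conv_lhs => rw [← hfix]
    unfold TT HH
    linear_combination (1728 * (-64) * (1 + 343 * yy u) ^ 3 -
      343 * ((-215) ^ 3 * u ^ 2 * WW u)) * hab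
  have hmod : PadicInt.toZMod u = -1 := by
    have h1 := congrArg (PadicInt.toZMod (p := 7)) heq
    simp only [map_mul, map_sub, map_add, map_pow, map_neg, map_ofNat, map_one] at h1
    have h343 : (343 : ZMod 7) = 0 := by decide
    rw [h343, zero_mul, zero_mul, add_zero, one_pow, mul_one, sub_zero] at h1
    revert h1
    generalize PadicInt.toZMod u = x
    revert x
    decide
  have hu_unit : IsUnit u := by
    by_contra h2
    have h3 : u ∈ IsLocalRing.maximalIdeal ℤ_[7] := (IsLocalRing.mem_maximalIdeal _).2 h2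
    rw [← PadicInt.ker_toZMod] at h3
    have h4 : PadicInt.toZMod u = 0 := h3
    rw [h4] at hmod
    exact absurd hmod (by decide)
  obtain ⟨u', hu'⟩ := hu_unit
  refine ⟨u', by rw [hu']; exact hmod, ?_, ?_, ?_⟩
  · apply mul_ne_zero
    · rw [hu']
      intro h
      have : u = 0 := Subtype.ext h
      rw [this, map_zero] at hmod
      exact absurd hmod (by decide)
    · norm_num
  · rw [norm_mul, norm_pow]
    have h1 : ‖((u' : ℤ_[7]) : ℚ_[7])‖ ≤ 1 := PadicInt.norm_le_one _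
    have h2 : ‖(7 : ℚ_[7])‖ = (7 : ℝ)⁻¹ := by
      have := Padic.norm_p (p := 7)
      simpa using this
    rw [h2]
    calc ‖((u' : ℤ_[7]) : ℚ_[7])‖ * (7 : ℝ)⁻¹ ^ 3 ≤ 1 * (7 : ℝ)⁻¹ ^ 3 := by gcongr
      _ < 1 := by norm_num
  · have hc4 : E14.c₄ = -215 := by
      simp [E14, WeierstrassCurve.c₄, WeierstrassCurve.b₂, WeierstrassCurve.b₄]
    have hΔ : E14.Δ = -21952 := by
      simp [E14, WeierstrassCurve.Δ, WeierstrassCurve.b₂, WeierstrassCurve.b₄,
        WeierstrassCurve.b₆, WeierstrassCurve.b₈]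
    rw [hc4, hΔ, hu']
    unfold E4 E6
    rw [series_eq 3 u, series_eq 5 u]
    have heq' := congrArg (PadicInt.Coe.ringHom (p := 7)) heq
    simp only [map_mul, map_sub, map_add, map_pow, map_neg, map_ofNat, map_one, yy, WW] at heq'
    have e1 : ∀ x : ℤ_[7], (PadicInt.Coe.ringHom (p := 7)) x = (x : ℚ_[7]) := fun _ => rfl
    simp only [e1] at heq'
    generalize (u : ℚ_[7]) = U at *
    generalize ((AA 3 u : ℤ_[7]) : ℚ_[7]) = A at *
    generalize ((AA 5 u : ℤ_[7]) : ℚ_[7]) = B at *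
    push_cast
    linear_combination 343 * heq'

end Pool.Agent.W598.MT
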